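import Mathlib

/-!
# Extension of isomorphisms of countable subfields to automorphisms of `ℂ`
-/

set_option autoImplicit false

namespace Pool.Agent.A640.Tate

open Cardinal

universe u

/-- two algebraically closed fields over `R` with transcendence bases of the same size are
isomorphic over `R` -/
theorem algEquiv_of_basis {R : Type*} {K : Type*} {L : Type*} {ι : Type*} {κ : Type*}
    [CommRing R] [Field K] [Field L] [Algebra R K] [Algebra R L] [IsAlgClosed K] [IsAlgClosed L]
    (v : ι → K) (w : κ → L) (e : ι ≃ κ) (hv : IsTranscendenceBasis R v)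
    (hw : IsTranscendenceBasis R w) : Nonempty (K ≃ₐ[R] L) := by
  let _ := IsAlgClosed.isAlgClosure_of_transcendence_basis v hv
  let _ := IsAlgClosed.isAlgClosure_of_transcendence_basis w hw
  let e' : Algebra.adjoin R (Set.range v) ≃ₐ[R] Algebra.adjoin R (Set.range w) :=
    hv.1.aevalEquiv.symm.trans ((MvPolynomial.renameEquiv R e).trans hw.1.aevalEquiv)
  refine ⟨AlgEquiv.ofRingEquiv (f := IsAlgClosure.equivOfEquiv K L e'.toRingEquiv) fun r => ?_⟩
  rw [IsScalarTower.algebraMap_apply R (Algebra.adjoin R (Set.range v)) K,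
    IsAlgClosure.equivOfEquiv_algebraMap]
  have h : e'.toRingEquiv (algebraMap R (Algebra.adjoin R (Set.range v)) r) =
      algebraMap R (Algebra.adjoin R (Set.range w)) r := e'.commutes r
  rw [h, ← IsScalarTower.algebraMap_apply]

/-- uncountable algebraically closed fields of the same cardinality over a countable field -/
theorem algEquiv_of_card {R K L : Type u} [Field R] [Countable R] [Field K] [Field L]
    [Algebra R K] [Algebra R L] [IsAlgClosed K] [IsAlgClosed L] (hK : ℵ₀ < #K)
    (hKL : #K = #L) : Nonempty (K ≃ₐ[R] L) := by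
  obtain ⟨s, hs⟩ := exists_isTranscendenceBasis R K
  obtain ⟨t, ht⟩ := exists_isTranscendenceBasis R L
  have h1 : #K = #s := IsAlgClosed.cardinal_eq_cardinal_transcendence_basis_of_aleph0_lt' _ hs
    (Cardinal.mk_le_aleph0) hK
  have h2 : #L = #t := IsAlgClosed.cardinal_eq_cardinal_transcendence_basis_of_aleph0_lt' _ ht
    (Cardinal.mk_le_aleph0) (hKL ▸ hK)
  have h3 : #s = #t := by rw [← h1, hKL, h2]
  obtain ⟨e⟩ := Cardinal.eq.1 h3
  exact algEquiv_of_basis _ _ e hs ht

/-- the same with two ring homomorphisms -/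
theorem ringEquiv_of_hom {R K L : Type u} [Field R] [Countable R] [Field K] [Field L]
    [IsAlgClosed K] [IsAlgClosed L] (hK : ℵ₀ < #K) (hKL : #K = #L) (f : R →+* K) (g : R →+* L) :
    ∃ τ : K ≃+* L, ∀ x, τ (f x) = g x := by
  let _ := f.toAlgebra
  let _ := g.toAlgebra
  obtain ⟨e⟩ := algEquiv_of_card (R := R) hK hKL
  exact ⟨e.toRingEquiv, fun x => e.commutes x⟩

/-- (E) two embeddings of a countable field into `ℂ` differ by an automorphism of `ℂ` -/
theorem exists_aut_comp {K : Type} [Field K] [Countable K] (f g : K →+* ℂ) :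
    ∃ τ : ℂ ≃+* ℂ, ∀ x, τ (f x) = g x := by
  have hc : ℵ₀ < #ℂ := by
    rw [Cardinal.mk_complex]
    exact Cardinal.aleph0_lt_continuum
  exact ringEquiv_of_hom hc rfl f g

/-- (E') an isomorphism between countable subfields of `ℂ` extends to an automorphism of `ℂ` -/
theorem exists_aut_extending (K K' : Subfield ℂ) [Countable K] (σ : K ≃+* K') :
    ∃ τ : ℂ ≃+* ℂ, ∀ x : K, τ (x : ℂ) = (σ x : ℂ) :=
  exists_aut_comp K.subtype (K'.subtype.comp (σ : K →+* K'))

/-- a fraction field of a countable domain is countable -/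
theorem countable_fractionRing (A : Type*) [CommRing A] [IsDomain A] [Countable A] :
    Countable (FractionRing A) := by
  refine Function.Surjective.countable (α := A × nonZeroDivisors A)
    (f := fun p => IsLocalization.mk' (FractionRing A) p.1 p.2) fun z => ?_
  obtain ⟨x, y, h⟩ := IsLocalization.exists_mk'_eq (nonZeroDivisors A) z
  exact ⟨(x, y), h⟩

/-- (T) over a countable subfield, algebraically independent families are conjugate -/
theorem exists_aut_of_algebraicIndependent {ι : Type} [Countable ι] (K : Subfield ℂ) [Countable K]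
    {x y : ι → ℂ} (hx : AlgebraicIndependent K x) (hy : AlgebraicIndependent K y) :
    ∃ τ : ℂ ≃+* ℂ, (∀ k : K, τ (k : ℂ) = k) ∧ ∀ i, τ (x i) = y i := by
  have hA : Countable (MvPolynomial ι K) := by
    rw [← Cardinal.mk_le_aleph0_iff]
    refine MvPolynomial.cardinalMk_le_max_lift.trans ?_
    simp
  have hF := countable_fractionRing (MvPolynomial ι K)
  have ix : Function.Injective (MvPolynomial.aeval x : MvPolynomial ι K →ₐ[K] ℂ).toRingHom :=
    algebraicIndependent_iff_injective_aeval.1 hx
  have iy : Function.Injective (MvPolynomial.aeval y : MvPolynomial ι K →ₐ[K] ℂ).toRingHom :=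
    algebraicIndependent_iff_injective_aeval.1 hy
  obtain ⟨τ, hτ⟩ := exists_aut_comp (K := FractionRing (MvPolynomial ι K))
    (IsFractionRing.lift ix) (IsFractionRing.lift iy)
  have h : ∀ p : MvPolynomial ι K, τ (MvPolynomial.aeval x p) = MvPolynomial.aeval y p := by
    intro p
    have h1 := hτ (algebraMap _ _ p)
    rw [IsFractionRing.lift_algebraMap, IsFractionRing.lift_algebraMap] at h1
    exact h1
  refine ⟨τ, fun k => ?_, fun i => ?_⟩
  · have h1 := h (MvPolynomial.C k)
    rw [MvPolynomial.aeval_C, MvPolynomial.aeval_C] at h1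
    exact h1
  · have h1 := h (MvPolynomial.X i)
    rwa [MvPolynomial.aeval_X, MvPolynomial.aeval_X] at h1

/-- (T1) two numbers transcendental over a countable subfield are conjugate over it -/
theorem exists_aut_of_transcendental (K : Subfield ℂ) [Countable K] {x y : ℂ}
    (hx : Transcendental K x) (hy : Transcendental K y) :
    ∃ τ : ℂ ≃+* ℂ, (∀ k : K, τ (k : ℂ) = k) ∧ τ x = y := by
  obtain ⟨τ, h1, h2⟩ := exists_aut_of_algebraicIndependent (ι := Unit) K
    (x := fun _ => x) (y := fun _ => y)
    (algebraicIndependent_unique_type_iff.2 hx) (algebraicIndependent_unique_type_iff.2 hy)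
  exact ⟨τ, h1, h2 ()⟩

/-- (S) a countable set of complex numbers stable under the automorphisms of `ℂ` over a countable
subfield consists of numbers algebraic over it -/
theorem isAlgebraic_of_countable_stable (K : Subfield ℂ) [Countable K] (S : Set ℂ)
    (hS : S.Countable)
    (hst : ∀ τ : ℂ ≃+* ℂ, (∀ k : K, τ (k : ℂ) = k) → ∀ x ∈ S, τ x ∈ S) :
    ∀ x ∈ S, IsAlgebraic K x := by
  intro x hx
  by_contra hcon
  have h1 : {y : ℂ | ¬ IsAlgebraic K y} ⊆ S := fun y hy => by
    obtain ⟨τ, hτ, rfl⟩ := exists_aut_of_transcendental K (x := x) (y := y) hcon hy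
    exact hst τ hτ x hx
  have h2 : (Set.univ : Set ℂ).Countable := by
    refine ((Algebraic.countable K ℂ).union (hS.mono h1)).mono fun z _ => ?_
    by_cases hz : IsAlgebraic K z
    · exact Or.inl hz
    · exact Or.inr hz
  exact not_countable_complex h2

end Pool.Agent.A640.Tate
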