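import Pool.Agent.Lib.MP_640417_ag.TATE.Ext

/-!
# Automorphisms of `ℂ` extending automorphisms of a countable subfield and fixing finitely many
numbers
-/

set_option autoImplicit false

namespace Pool.Agent.A640.Tate

/-- (F2) if the orbit of `a` under the automorphisms of `ℂ` over a countable subfield is countable
then `a` is algebraic over it -/
theorem isAlgebraic_of_countable_orbit (K : Subfield ℂ) [Countable K] (a : ℂ)
    (h : {b : ℂ | ∃ τ : ℂ ≃+* ℂ, (∀ k : K, τ (k : ℂ) = k) ∧ τ a = b}.Countable) :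
    IsAlgebraic K a := by
  refine isAlgebraic_of_countable_stable K _ h ?_ a ⟨RingEquiv.refl ℂ, fun _ => rfl, rfl⟩
  rintro τ hτ x ⟨ρ, hρ, rfl⟩
  refine ⟨ρ.trans τ, fun k => ?_, rfl⟩
  rw [RingEquiv.trans_apply, hρ, hτ]

/-- two embeddings of a countable domain into `ℂ` differ by an automorphism of `ℂ` -/
theorem exists_aut_comp_domain {D : Type} [CommRing D] [IsDomain D] [Countable D] (f g : D →+* ℂ)
    (hf : Function.Injective f) (hg : Function.Injective g) :
    ∃ τ : ℂ ≃+* ℂ, ∀ d, τ (f d) = g d := by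
  have hF := countable_fractionRing D
  obtain ⟨τ, hτ⟩ := exists_aut_comp (K := FractionRing D) (IsFractionRing.lift hf)
    (IsFractionRing.lift hg)
  refine ⟨τ, fun d => ?_⟩
  have h1 := hτ (algebraMap _ _ d)
  rw [IsFractionRing.lift_algebraMap, IsFractionRing.lift_algebraMap] at h1
  exact h1

/-- two homomorphisms with the same kernel from a countable commutative ring to `ℂ` differ by an
automorphism of `ℂ` -/
theorem exists_aut_of_ker {R : Type} [CommRing R] [Countable R] (φ ψ : R →+* ℂ)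
    (h : ∀ r, φ r = 0 ↔ ψ r = 0) : ∃ τ : ℂ ≃+* ℂ, ∀ r, τ (φ r) = ψ r := by
  have hp : (RingHom.ker φ).IsPrime := RingHom.ker_isPrime φ
  have hf : ∀ p ∈ RingHom.ker φ, φ p = 0 := fun p hp => hp
  have hg : ∀ p ∈ RingHom.ker φ, ψ p = 0 := fun p hp => (h p).1 hp
  have hc : Countable (R ⧸ RingHom.ker φ) := Quotient.countable
  obtain ⟨τ, hτ⟩ := exists_aut_comp_domain (D := R ⧸ RingHom.ker φ)
    (Ideal.Quotient.lift _ φ hf) (Ideal.Quotient.lift _ ψ hg) (by
      rw [injective_iff_map_eq_zero]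
      intro z hz
      obtain ⟨p, rfl⟩ := Ideal.Quotient.mk_surjective z
      rw [Ideal.Quotient.lift_mk] at hz
      exact Ideal.Quotient.eq_zero_iff_mem.2 hz) (by
      rw [injective_iff_map_eq_zero]
      intro z hz
      obtain ⟨p, rfl⟩ := Ideal.Quotient.mk_surjective z
      rw [Ideal.Quotient.lift_mk] at hz
      exact Ideal.Quotient.eq_zero_iff_mem.2 ((h p).2 hz))
  exact ⟨τ, fun r => hτ (Ideal.Quotient.mk _ r)⟩

/-- (F3, general form) `K` a countable field in `ℂ`, `x` finitely many numbers: there is a finite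
subset `Y` of `K` such that every automorphism of `K` which fixes `Y` pointwise extends to an
automorphism of `ℂ` which fixes the numbers `x` -/
theorem exists_finite_extend' {K : Type} [Field K] [Countable K] (ι : K →+* ℂ) {X : Type}
    [Finite X] (x : X → ℂ) :
    ∃ Y : Finset K, ∀ σ : K ≃+* K, (∀ y ∈ Y, σ y = y) →
      ∃ τ : ℂ ≃+* ℂ, (∀ a, τ (ι a) = ι (σ a)) ∧ ∀ i, τ (x i) = x i := by
  classical
  have hfg : (RingHom.ker (MvPolynomial.eval₂Hom ι x)).FG :=
    (isNoetherianRing_iff_ideal_fg _).1 inferInstance _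
  obtain ⟨G, hG⟩ := hfg
  refine ⟨G.biUnion fun g => g.support.image fun m => g.coeff m, fun σ hσ => ?_⟩
  have key : ∀ ρ : K →+* K, (∀ y ∈ (G.biUnion fun g => g.support.image fun m => g.coeff m),
      ρ y = y) → ∀ p, MvPolynomial.eval₂Hom ι x p = 0 →
      MvPolynomial.eval₂Hom ι x (MvPolynomial.map ρ p) = 0 := by
    intro ρ hρ p hp
    have hgen : ∀ g ∈ G, MvPolynomial.map ρ g = g := by
      intro g hg
      refine MvPolynomial.ext _ _ fun m => ?_
      rw [MvPolynomial.coeff_map]
      by_cases hm : m ∈ g.support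
      · exact hρ _ (Finset.mem_biUnion.2 ⟨g, hg, Finset.mem_image.2 ⟨m, hm, rfl⟩⟩)
      · rw [MvPolynomial.notMem_support_iff.1 hm, map_zero]
    have hp' : p ∈ Ideal.span (G : Set (MvPolynomial X K)) := by
      rw [hG]
      exact hp
    have h1 : MvPolynomial.map ρ p ∈ (Ideal.span (G : Set (MvPolynomial X K))).map
        (MvPolynomial.map ρ) := Ideal.mem_map_of_mem _ hp'
    rw [Ideal.map_span] at h1
    have h2 : (MvPolynomial.map ρ) '' (G : Set (MvPolynomial X K)) =
        (G : Set (MvPolynomial X K)) := by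
      ext q
      constructor
      · rintro ⟨g, hg, rfl⟩
        rw [hgen g hg]
        exact hg
      · intro hq
        exact ⟨q, hq, hgen q hq⟩
    rw [h2, hG] at h1
    exact h1
  have hσ' : ∀ y ∈ (G.biUnion fun g => g.support.image fun m => g.coeff m),
      σ.symm y = y := by
    intro y hy
    rw [RingEquiv.symm_apply_eq]
    exact (hσ y hy).symm
  have h3 : ∀ p : MvPolynomial X K,
      MvPolynomial.map (σ.symm : K →+* K) (MvPolynomial.map (σ : K →+* K) p) = p := by
    intro p
    rw [MvPolynomial.map_map]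
    have h4 : (σ.symm : K →+* K).comp (σ : K →+* K) = RingHom.id K := by
      ext a
      simp
    rw [h4, MvPolynomial.map_id]
  have hA : Countable (MvPolynomial X K) := by
    rw [← Cardinal.mk_le_aleph0_iff]
    refine MvPolynomial.cardinalMk_le_max_lift.trans ?_
    simp
  obtain ⟨τ, hτ⟩ := exists_aut_of_ker (MvPolynomial.eval₂Hom ι x)
    ((MvPolynomial.eval₂Hom ι x).comp (MvPolynomial.map (σ : K →+* K))) (fun p => by
      rw [RingHom.comp_apply]
      refine ⟨key _ hσ p, fun hp => ?_⟩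
      have h5 := key (σ.symm : K →+* K) hσ' _ hp
      rwa [h3] at h5)
  refine ⟨τ, fun a => ?_, fun i => ?_⟩
  · have h1 := hτ (MvPolynomial.C a)
    rw [RingHom.comp_apply, MvPolynomial.map_C, MvPolynomial.coe_eval₂Hom,
      MvPolynomial.eval₂_C, MvPolynomial.eval₂_C] at h1
    exact h1
  · have h1 := hτ (MvPolynomial.X i)
    rw [RingHom.comp_apply, MvPolynomial.map_X, MvPolynomial.coe_eval₂Hom,
      MvPolynomial.eval₂_X] at h1
    exact h1

/-- (F3) let `A` be a countable subfield of `ℂ` and `X` a finite set; there is a finite subset `Y`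
of `A` such that every automorphism of `A` which fixes `Y` pointwise extends to an automorphism of
`ℂ` which fixes `X` pointwise -/
theorem exists_finite_extend (A : Subfield ℂ) [Countable A] (X : Set ℂ) (hX : X.Finite) :
    ∃ Y : Finset A, ∀ σ : A ≃+* A, (∀ y ∈ Y, σ y = y) →
      ∃ τ : ℂ ≃+* ℂ, (∀ a : A, τ (a : ℂ) = (σ a : ℂ)) ∧ ∀ x ∈ X, τ x = x := by
  have hXf : Finite X := hX
  obtain ⟨Y, hY⟩ := exists_finite_extend' A.subtype (fun x : X => (x : ℂ))
  refine ⟨Y, fun σ hσ => ?_⟩
  obtain ⟨τ, h1, h2⟩ := hY σ hσ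
  exact ⟨τ, h1, fun x hx => h2 ⟨x, hx⟩⟩

end Pool.Agent.A640.Tate
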