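import Mathlib

/-!
# A Liouville theorem for subharmonic functions on the plane minus finitely many points
-/

set_option autoImplicit false

namespace Pool.Agent.A640.Tate

open Complex Filter Topology Set InnerProductSpace Laplacian

/-- second derivative test on the line -/
lemma deriv2_nonpos {g : ℝ → ℝ} (hc : ContinuousAt g 0) (hmax : IsLocalMax g 0) :
    deriv (deriv g) 0 ≤ 0 := by
  by_contra hcon
  push Not at hcon
  have h1 : deriv g 0 = 0 := hmax.deriv_eq_zero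
  have h2 : IsLocalMin g 0 := isLocalMin_of_deriv_deriv_pos hcon h1 hc
  have h3 : g =ᶠ[𝓝 0] fun _ => g 0 := by
    filter_upwards [hmax, h2] with t ht1 ht2
    exact le_antisymm ht1 ht2
  have h4 : deriv g =ᶠ[𝓝 0] fun _ => 0 := by
    have h := h3.deriv
    simpa using h
  have h5 : deriv (deriv g) 0 = 0 := by
    rw [h4.deriv_eq]
    simp
  linarith

/-- second derivatives in a direction -/
lemma dir2 {v : ℂ → ℝ} {z : ℂ} (hv : ContDiffAt ℝ 2 v z) (e : ℂ) :
    deriv (deriv fun t : ℝ => v (z + t • e)) 0 = iteratedFDeriv ℝ 2 v z ![e, e] := by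
  have hline : ∀ t : ℝ, HasDerivAt (fun t : ℝ => z + t • e) e t := by
    intro t
    have h := ((hasDerivAt_id t).smul_const e).const_add z
    simpa using h
  have hcont : Tendsto (fun t : ℝ => z + t • e) (𝓝 0) (𝓝 z) := by
    have h := (hline 0).continuousAt.tendsto
    simpa using h
  have h1 : ∀ᶠ t : ℝ in 𝓝 0, DifferentiableAt ℝ v (z + t • e) := by
    have h := hv.eventually (by simp)
    filter_upwards [hcont.eventually h] with t ht
    exact ht.differentiableAt (by norm_num)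
  have h2 : (deriv fun t : ℝ => v (z + t • e)) =ᶠ[𝓝 0] fun t => fderiv ℝ v (z + t • e) e := by
    filter_upwards [h1] with t ht
    exact (ht.hasFDerivAt.comp_hasDerivAt t (hline t)).deriv
  rw [h2.deriv_eq]
  have h3 : DifferentiableAt ℝ (fderiv ℝ v) (z + (0 : ℝ) • e) := by
    rw [zero_smul, add_zero]
    exact (hv.fderiv_right (m := 1) (by norm_num)).differentiableAt (by norm_num)
  have h4 : HasDerivAt (fun t : ℝ => fderiv ℝ v (z + t • e))
      (fderiv ℝ (fderiv ℝ v) (z + (0 : ℝ) • e) e) 0 :=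
    h3.hasFDerivAt.comp_hasDerivAt 0 (hline 0)
  have h5 := (h4.clm_apply (hasDerivAt_const (0 : ℝ) e)).deriv
  rw [h5, iteratedFDeriv_two_apply]
  simp

/-- at a local maximum the Laplacian is at most zero -/
lemma laplacian_nonpos {v : ℂ → ℝ} {z : ℂ} (hv : ContDiffAt ℝ 2 v z) (hmax : IsLocalMax v z) :
    Δ v z ≤ 0 := by
  have h1 : ∀ e : ℂ, iteratedFDeriv ℝ 2 v z ![e, e] ≤ 0 := by
    intro e
    rw [← dir2 hv e]
    have hcont : ContinuousAt (fun t : ℝ => z + t • e) 0 := by fun_prop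
    refine deriv2_nonpos ?_ ?_
    · refine ContinuousAt.comp (g := v) ?_ hcont
      simpa using hv.continuousAt
    · have h2 : Tendsto (fun t : ℝ => z + t • e) (𝓝 0) (𝓝 z) := by
        simpa using hcont.tendsto
      have h3 := h2.eventually hmax
      filter_upwards [h3] with t ht
      simpa using ht
  rw [laplacian_eq_iteratedFDeriv_complexPlane]
  exact add_nonpos (h1 1) (h1 I)

/-- the Laplacian of the square of the real part -/
lemma laplacian_sq (z : ℂ) : Δ (fun w : ℂ => w.re ^ 2) z = 2 := by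
  have hv : ContDiffAt ℝ 2 (fun w : ℂ => w.re ^ 2) z :=
    (reCLM.contDiff.pow 2).contDiffAt
  rw [laplacian_eq_iteratedFDeriv_complexPlane]
  simp only
  rw [← dir2 hv 1, ← dir2 hv I]
  have h1 : (fun t : ℝ => ((z + t • (1 : ℂ)).re) ^ 2) = fun t => (z.re + t) ^ 2 := by
    funext t
    simp
  have h2 : (fun t : ℝ => ((z + t • I).re) ^ 2) = fun _ => z.re ^ 2 := by
    funext t
    simp
  have h3 : (deriv fun t : ℝ => (z.re + t) ^ 2) = fun t => 2 * (z.re + t) := by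
    funext t
    have h := ((hasDerivAt_id' t).const_add z.re).pow 2
    refine (h.congr_deriv ?_).deriv
    push_cast
    ring
  have h4 : deriv (fun t : ℝ => 2 * (z.re + t)) 0 = 2 := by
    simp
  rw [h1, h2, h3, h4]
  simp

/-- the comparison function -/
noncomputable def hh (F : Finset ℂ) (z0 z : ℂ) : ℝ :=
  ((F.card : ℝ) + 1) * Real.log ‖z - z0‖ - ∑ a ∈ F, Real.log ‖z - a‖

lemma harm_log (a : ℂ) {z : ℂ} (hz : z ≠ a) : HarmonicAt (fun w => Real.log ‖w - a‖) z :=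
  AnalyticAt.harmonicAt_log_norm (f := fun w => w - a) (by fun_prop) (sub_ne_zero.2 hz)

lemma harm_sum (F : Finset ℂ) {z : ℂ} (hz : z ∉ F) :
    HarmonicAt (fun w => ∑ a ∈ F, Real.log ‖w - a‖) z := by
  induction F using Finset.induction_on with
  | empty => simp
  | insert a F ha ih =>
    have h1 : z ≠ a := fun h => hz (h ▸ Finset.mem_insert_self a F)
    have h2 : z ∉ F := fun h => hz (Finset.mem_insert_of_mem h)
    have h3 : (fun w => ∑ a ∈ insert a F, Real.log ‖w - a‖) =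
        (fun w => Real.log ‖w - a‖) + fun w => ∑ a ∈ F, Real.log ‖w - a‖ := by
      funext w
      rw [Finset.sum_insert ha]
      rfl
    rw [h3]
    exact (harm_log a h1).add (ih h2)

lemma harm_hh (F : Finset ℂ) (z0 : ℂ) {z : ℂ} (hz : z ∉ F) (hz0 : z ≠ z0) :
    HarmonicAt (hh F z0) z := by
  have h1 : hh F z0 = (((F.card : ℝ) + 1) • fun w => Real.log ‖w - z0‖) -
      fun w => ∑ a ∈ F, Real.log ‖w - a‖ := by
    funext w
    rfl
  rw [h1]
  exact ((harm_log z0 hz0).const_smul).sub (harm_sum F hz)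

/-- lower bound of the comparison function -/
lemma hh_ge (F : Finset ℂ) {z0 : ℂ} {r : ℝ} (hr : 0 < r) {z : ℂ} (hz : z ∉ F)
    (hrz : r ≤ ‖z - z0‖) :
    Real.log ‖z - z0‖ - ∑ a ∈ F, Real.log (1 + ‖z0 - a‖ / r) ≤ hh F z0 z := by
  have hpos : 0 < ‖z - z0‖ := hr.trans_le hrz
  have h1 : ∀ a ∈ F, Real.log ‖z - a‖ ≤ Real.log ‖z - z0‖ + Real.log (1 + ‖z0 - a‖ / r) := by
    intro a ha
    have hza : 0 < ‖z - a‖ := norm_pos_iff.2 (sub_ne_zero.2 fun h => hz (h ▸ ha))
    rw [← Real.log_mul hpos.ne' (by positivity)]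
    refine Real.log_le_log hza ?_
    have h2 : ‖z - a‖ ≤ ‖z - z0‖ + ‖z0 - a‖ := by
      have h3 : z - a = (z - z0) + (z0 - a) := by ring
      rw [h3]
      exact norm_add_le _ _
    have h3 : ‖z0 - a‖ ≤ ‖z - z0‖ * (‖z0 - a‖ / r) := by
      rw [mul_div_assoc', le_div_iff₀ hr, mul_comm]
      exact mul_le_mul_of_nonneg_right hrz (norm_nonneg _)
    linarith
  have h2 := Finset.sum_le_sum h1
  rw [Finset.sum_add_distrib, Finset.sum_const, nsmul_eq_mul] at h2
  unfold hh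
  linarith

/-- near a point of `F` -/
lemma near_pt (F : Finset ℂ) {z0 a : ℂ} (hz0 : z0 ∉ F) (ha : a ∈ F) {u : ℂ → ℝ} {ε : ℝ}
    (hε : 0 < ε) (hu : ∀ᶠ z in 𝓝[≠] a, u z ≤ ε / 2 * Real.log (1 / ‖z - a‖)) (M : ℝ) :
    ∀ᶠ z in 𝓝[≠] a, u z - ε * hh F z0 z < M := by
  classical
  -- the regular part
  set k : ℂ → ℝ := fun z => ((F.card : ℝ) + 1) * Real.log ‖z - z0‖ -
    ∑ b ∈ F.erase a, Real.log ‖z - b‖ with hk
  have hkc : ContinuousAt k a := by
    refine ContinuousAt.sub ?_ ?_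
    · refine continuousAt_const.mul (ContinuousAt.log (by fun_prop) ?_)
      exact (norm_pos_iff.2 (sub_ne_zero.2 fun h => hz0 (by rw [← h]; exact ha))).ne'
    · refine tendsto_finsetSum _ fun b hb => ?_
      have hba : a ≠ b := (Finset.ne_of_mem_erase hb).symm
      exact ContinuousAt.log (by fun_prop) (norm_pos_iff.2 (sub_ne_zero.2 hba)).ne'
  have hkb : ∀ᶠ z in 𝓝[≠] a, k a - 1 < k z :=
    (hkc.tendsto.eventually (lt_mem_nhds (by linarith))).filter_mono nhdsWithin_le_nhds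
  have hlog : Tendsto (fun z : ℂ => Real.log ‖z - a‖) (𝓝[≠] a) atBot := by
    refine Real.tendsto_log_nhdsNE_zero.comp (tendsto_nhdsWithin_iff.2 ⟨?_, ?_⟩)
    · have h : Tendsto (fun z : ℂ => ‖z - a‖) (𝓝 a) (𝓝 ‖a - a‖) :=
        (continuous_norm.comp (continuous_id.sub continuous_const)).tendsto a
      rw [sub_self, norm_zero] at h
      exact h.mono_left nhdsWithin_le_nhds
    · filter_upwards [self_mem_nhdsWithin] with z hz
      exact (norm_pos_iff.2 (sub_ne_zero.2 hz)).ne'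
  have hl := hlog.eventually (eventually_lt_atBot ((M + ε * (k a - 1)) / (ε / 2)))
  filter_upwards [hu, hkb, hl, self_mem_nhdsWithin] with z h1 h2 h3 h4
  have h5 : hh F z0 z = k z - Real.log ‖z - a‖ := by
    rw [hk]
    unfold hh
    rw [← Finset.add_sum_erase F (fun b => Real.log ‖z - b‖) ha]
    ring
  rw [one_div, Real.log_inv] at h1
  rw [lt_div_iff₀ (by positivity)] at h3
  have h6 : ε * (k a - 1) < ε * k z := mul_lt_mul_of_pos_left h2 hε
  rw [h5]
  have h7 : ε * (k z - Real.log ‖z - a‖) = ε * k z - ε * Real.log ‖z - a‖ := by ring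
  rw [h7]
  have h8 : Real.log ‖z - a‖ * (ε / 2) = ε * Real.log ‖z - a‖ - ε / 2 * Real.log ‖z - a‖ := by
    ring
  rw [h8] at h3
  nlinarith

/-- near infinity -/
lemma near_inf (F : Finset ℂ) (z0 : ℂ) {r : ℝ} (hr : 0 < r) {u : ℂ → ℝ} {ε : ℝ} (hε : 0 < ε)
    (hu : ∃ R : ℝ, ∀ z : ℂ, R ≤ ‖z‖ → z ∉ F → u z ≤ ε / 2 * Real.log ‖z‖) (M : ℝ) :
    ∃ R : ℝ, 0 < R ∧ ∀ z : ℂ, R < ‖z‖ → z ∉ F → r ≤ ‖z - z0‖ → u z - ε * hh F z0 z < M := by
  obtain ⟨R1, hR1⟩ := hu
  set C := ∑ a ∈ F, Real.log (1 + ‖z0 - a‖ / r) with hC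
  have hlog := Real.tendsto_log_atTop.eventually
    (eventually_gt_atTop ((ε * (C + Real.log 2) - M) / (ε / 2)))
  obtain ⟨R2, hR2⟩ := eventually_atTop.1 hlog
  refine ⟨max (max R1 R2) (2 * ‖z0‖ + 1), by positivity, fun z hz hzF hrz => ?_⟩
  have hz1 : R1 ≤ ‖z‖ := ((le_max_left _ _).trans (le_max_left _ _)).trans hz.le
  have hz2 : R2 ≤ ‖z‖ := ((le_max_right _ _).trans (le_max_left _ _)).trans hz.le
  have hz3 : 2 * ‖z0‖ + 1 < ‖z‖ := (le_max_right _ _).trans_lt hz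
  have hzp : 0 < ‖z‖ := by
    have := norm_nonneg z0
    linarith
  have h1 := hR1 z hz1 hzF
  have h2 := hR2 ‖z‖ hz2
  have h3 := hh_ge F hr hzF hrz
  have h4 : Real.log ‖z‖ - Real.log 2 ≤ Real.log ‖z - z0‖ := by
    rw [← Real.log_div hzp.ne' (by norm_num)]
    refine Real.log_le_log (by positivity) ?_
    have h5 := norm_sub_norm_le z z0
    have := norm_nonneg z0
    linarith
  rw [div_lt_iff₀ (by positivity)] at h2
  have h6 : ε * (Real.log ‖z‖ - Real.log 2 - C) ≤ ε * hh F z0 z :=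
    mul_le_mul_of_nonneg_left (by linarith) hε.le
  nlinarith

/-- the maximum principle outside a disc -/
lemma outside (F : Finset ℂ) {u : ℂ → ℝ} (hu : ∀ z ∉ F, ContDiffAt ℝ 2 u z)
    (hD : ∀ z ∉ F, 0 ≤ Δ u z)
    (hF : ∀ a ∈ F, ∀ ε : ℝ, 0 < ε → ∀ᶠ z in 𝓝[≠] a, u z ≤ ε * Real.log (1 / ‖z - a‖))
    (hinf : ∀ ε : ℝ, 0 < ε → ∃ R : ℝ, ∀ z : ℂ, R ≤ ‖z‖ → z ∉ F → u z ≤ ε * Real.log ‖z‖)
    {z0 : ℂ} (hz0 : z0 ∉ F) {r : ℝ} (hr : 0 < r) {M : ℝ}
    (hM : ∀ z, z ∉ F → ‖z - z0‖ = r → u z ≤ M) {z1 : ℂ} (hz1 : z1 ∉ F) (hrz1 : r ≤ ‖z1 - z0‖) :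
    u z1 ≤ M := by
  set C0 := ∑ a ∈ F, Real.log (1 + ‖z0 - a‖ / r) - Real.log r with hC0
  have hlow : ∀ z ∉ F, r ≤ ‖z - z0‖ → - C0 ≤ hh F z0 z := by
    intro z hz hrz
    have h1 := hh_ge F hr hz hrz
    have h2 := Real.log_le_log hr hrz
    rw [hC0]
    linarith
  -- the claim for every ε
  have claim : ∀ ε : ℝ, 0 < ε → u z1 - ε * hh F z0 z1 ≤ M + ε * C0 := by
    intro ε hε
    by_contra hcon
    push Not at hcon
    set M' := M + ε * C0 with hM'
    set w : ℂ → ℝ := fun z => u z - ε * hh F z0 z with hw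
    have hw1 : M' < w z1 := hcon
    -- neighbourhoods of the points of F
    have hnear : ∀ a ∈ F, ∀ᶠ ρ in 𝓝[>] (0 : ℝ), ∀ z, z ≠ a → ‖z - a‖ < ρ → w z < M' := by
      intro a ha
      have h1 := near_pt F hz0 ha hε (hF a ha (ε / 2) (half_pos hε)) M'
      rw [eventually_nhdsWithin_iff, Metric.eventually_nhds_iff] at h1
      obtain ⟨ρ, hρ, h2⟩ := h1
      filter_upwards [Ioo_mem_nhdsGT hρ] with ρ' hρ' z hza hz
      exact h2 (by rw [dist_eq_norm]; exact hz.trans hρ'.2) hza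
    have hall := (Finset.eventually_all F).2 hnear
    obtain ⟨ρ, hρ, hρ0⟩ := (hall.and self_mem_nhdsWithin).exists
    obtain ⟨R, hR0, hR⟩ := near_inf F z0 hr hε (hinf (ε / 2) (half_pos hε)) M'
    -- the compact set
    set K : Set ℂ := {z | r ≤ ‖z - z0‖ ∧ (∀ a ∈ F, ρ ≤ ‖z - a‖) ∧ ‖z‖ ≤ R} with hK
    have hKF : ∀ z ∈ K, z ∉ F := by
      intro z hz hzF
      have h1 := hz.2.1 z hzF
      rw [sub_self, norm_zero] at h1
      exact absurd hρ0 (not_lt.2 h1)
    have hKcl : IsClosed K := by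
      have h1 : K = {z | r ≤ ‖z - z0‖} ∩ ((⋂ a ∈ F, {z | ρ ≤ ‖z - a‖}) ∩ {z | ‖z‖ ≤ R}) := by
        ext z
        simp [hK]
      rw [h1]
      refine (isClosed_le continuous_const (by fun_prop)).inter
        (IsClosed.inter ?_ (isClosed_le (by fun_prop) continuous_const))
      exact isClosed_biInter fun a _ => isClosed_le continuous_const (by fun_prop)
    have hKc : IsCompact K := by
      refine Metric.isCompact_of_isClosed_isBounded hKcl ?_
      refine (Metric.isBounded_closedBall (x := (0 : ℂ)) (r := R)).subset fun z hz => ?_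
      rw [mem_closedBall_zero_iff]
      exact hz.2.2
    have hmem : ∀ z, z ∉ F → r ≤ ‖z - z0‖ → M' ≤ w z → z ∈ K := by
      intro z hz hrz hwz
      refine ⟨hrz, fun a ha => ?_, ?_⟩
      · by_contra hlt
        push Not at hlt
        have := hρ a ha z (fun h => hz (h ▸ ha)) hlt
        linarith
      · by_contra hlt
        push Not at hlt
        have := hR z hlt hz hrz
        linarith
    have hz1K : z1 ∈ K := hmem z1 hz1 hrz1 hw1.le
    -- the perturbation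
    obtain ⟨δ, hδ, hδR⟩ : ∃ δ : ℝ, 0 < δ ∧ δ * R ^ 2 < w z1 - M' := by
      refine ⟨(w z1 - M') / (R ^ 2 + 1), div_pos (by linarith) (by positivity), ?_⟩
      rw [div_mul_eq_mul_div, div_lt_iff₀ (by positivity)]
      nlinarith
    set v : ℂ → ℝ := fun z => w z + δ * z.re ^ 2 with hv
    have hz0K : ∀ z ∈ K, z ≠ z0 := by
      rintro z hz rfl
      have h1 := hz.1
      rw [sub_self, norm_zero] at h1
      linarith
    have hwc2 : ∀ z, z ∉ F → z ≠ z0 → ContDiffAt ℝ 2 w z := by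
      intro z hz hzz
      exact (hu z hz).sub (contDiffAt_const.mul (harm_hh F z0 hz hzz).1)
    have hqc : ∀ z, ContDiffAt ℝ 2 (fun z : ℂ => δ * z.re ^ 2) z := fun z =>
      (contDiff_const.mul (reCLM.contDiff.pow 2)).contDiffAt
    have hvc2 : ∀ z, z ∉ F → z ≠ z0 → ContDiffAt ℝ 2 v z := fun z hz hzz =>
      (hwc2 z hz hzz).add (hqc z)
    have hvcont : ContinuousOn v K := fun z hz =>
      (hvc2 z (hKF z hz) (hz0K z hz)).continuousAt.continuousWithinAt
    obtain ⟨z2, hz2K, hz2max⟩ := hKc.exists_isMaxOn ⟨z1, hz1K⟩ hvcont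
    have hre : ∀ z ∈ K, z.re ^ 2 ≤ R ^ 2 := by
      intro z hz
      have h1 : |z.re| ≤ R := (abs_re_le_norm z).trans hz.2.2
      rw [← sq_abs]
      exact pow_le_pow_left₀ (abs_nonneg _) h1 2
    have hw2 : M' < w z2 := by
      have h1 : v z1 ≤ v z2 := hz2max hz1K
      have h2 : w z1 ≤ v z1 := by
        rw [hv]
        have := sq_nonneg z1.re
        simp only
        nlinarith
      have h3 : v z2 ≤ w z2 + δ * R ^ 2 := by
        rw [hv]
        simp only
        have := mul_le_mul_of_nonneg_left (hre z2 hz2K) hδ.le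
        linarith
      linarith
    have hz2F := hKF z2 hz2K
    have hz20 := hz0K z2 hz2K
    have hr2 : r < ‖z2 - z0‖ := by
      refine lt_of_le_of_ne hz2K.1 fun h => ?_
      have h1 := hM z2 hz2F h.symm
      have h2 := mul_le_mul_of_nonneg_left (hlow z2 hz2F hz2K.1) hε.le
      have h3 : w z2 ≤ M' := by
        rw [hw, hM']
        simp only
        linarith
      linarith
    have hloc : IsLocalMax v z2 := by
      have e1 : ∀ᶠ z in 𝓝 z2, M' < w z :=
        (hwc2 z2 hz2F hz20).continuousAt.tendsto.eventually (lt_mem_nhds hw2)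
      have e2 : ∀ᶠ z in 𝓝 z2, r < ‖z - z0‖ := by
        have hc : ContinuousAt (fun z : ℂ => ‖z - z0‖) z2 := by fun_prop
        exact hc.tendsto.eventually (lt_mem_nhds hr2)
      have e3 : ∀ᶠ z in 𝓝 z2, z ∉ F :=
        (F.finite_toSet.isClosed.isOpen_compl).mem_nhds hz2F
      filter_upwards [e1, e2, e3] with z h1 h2 h3
      exact hz2max (hmem z h3 h2.le h1.le)
    have hle := laplacian_nonpos (hvc2 z2 hz2F hz20) hloc
    have hcalc : Δ v z2 = Δ u z2 + δ * 2 := by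
      have h1 : v = u - ε • hh F z0 + δ • fun z : ℂ => z.re ^ 2 := by
        funext z
        rfl
      have hhh := harm_hh F z0 hz2F hz20
      have hsq : ContDiffAt ℝ 2 (fun z : ℂ => z.re ^ 2) z2 := (reCLM.contDiff.pow 2).contDiffAt
      have a1 : ContDiffAt ℝ 2 (ε • hh F z0) z2 := hhh.1.const_smul ε
      have a2 : ContDiffAt ℝ 2 (u - ε • hh F z0) z2 := (hu z2 hz2F).sub a1
      have a3 : ContDiffAt ℝ 2 (δ • fun z : ℂ => z.re ^ 2) z2 := hsq.const_smul δ
      rw [h1, a2.laplacian_add a3, (hu z2 hz2F).laplacian_sub a1,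
        laplacian_smul ε hhh.1, laplacian_smul δ hsq, laplacian_sq, hhh.2.eq_of_nhds]
      simp
    have h0 := hD z2 hz2F
    linarith
  -- conclusion
  refine le_of_forall_pos_le_add fun η hη => ?_
  have hpos : 0 < |C0 + hh F z0 z1| + 1 := by positivity
  have h1 := claim (η / (|C0 + hh F z0 z1| + 1)) (div_pos hη hpos)
  have h2 : η / (|C0 + hh F z0 z1| + 1) * (C0 + hh F z0 z1) ≤ η := by
    rw [div_mul_eq_mul_div, div_le_iff₀ hpos]
    have := le_abs_self (C0 + hh F z0 z1)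
    nlinarith
  nlinarith

/-- **Liouville theorem**: a subharmonic function of class `C²` on the plane minus a finite set
which is at most `o(log)` at the punctures and at infinity (from above) is constant -/
theorem liouville' (F : Finset ℂ) {u : ℂ → ℝ} (hu : ∀ z ∉ F, ContDiffAt ℝ 2 u z)
    (hD : ∀ z ∉ F, 0 ≤ Δ u z)
    (hF : ∀ a ∈ F, ∀ ε : ℝ, 0 < ε → ∀ᶠ z in 𝓝[≠] a, u z ≤ ε * Real.log (1 / ‖z - a‖))
    (hinf : ∀ ε : ℝ, 0 < ε → ∃ R : ℝ, ∀ z : ℂ, R ≤ ‖z‖ → z ∉ F → u z ≤ ε * Real.log ‖z‖) :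
    ∀ z ∉ F, ∀ w ∉ F, u z = u w := by
  have key : ∀ z ∉ F, ∀ w ∉ F, u z ≤ u w := by
    intro z hz w hw
    rcases eq_or_ne z w with rfl | hne
    · exact le_rfl
    refine le_of_forall_pos_le_add fun η hη => ?_
    have h1 : ∀ᶠ y in 𝓝 w, u y < u w + η :=
      (hu w hw).continuousAt.tendsto.eventually (gt_mem_nhds (by linarith))
    obtain ⟨ρ, hρ, h2⟩ := Metric.eventually_nhds_iff.1 h1
    have hzw : 0 < ‖z - w‖ := norm_pos_iff.2 (sub_ne_zero.2 hne)
    have hmin : 0 < min (ρ / 2) ‖z - w‖ := lt_min (half_pos hρ) hzw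
    refine outside F hu hD hF hinf hw hmin (fun y _ hy => ?_) hz (min_le_right _ _)
    refine (h2 ?_).le
    rw [dist_eq_norm, hy]
    exact (min_le_left _ _).trans_lt (half_lt_self hρ)
  exact fun z hz w hw => le_antisymm (key z hz w hw) (key w hw z hz)

/-- the same with the filter of the complements of compact sets -/
theorem liouville (F : Finset ℂ) {u : ℂ → ℝ} (hu : ∀ z ∉ F, ContDiffAt ℝ 2 u z)
    (hD : ∀ z ∉ F, 0 ≤ Δ u z)
    (hF : ∀ a ∈ F, ∀ ε : ℝ, 0 < ε → ∀ᶠ z in 𝓝[≠] a, u z ≤ ε * Real.log (1 / ‖z - a‖))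
    (hinf : ∀ ε : ℝ, 0 < ε → ∀ᶠ z in cocompact ℂ, u z ≤ ε * Real.log ‖z‖) :
    ∀ z ∉ F, ∀ w ∉ F, u z = u w := by
  refine liouville' F hu hD hF fun ε hε => ?_
  have h1 := hinf ε hε
  rw [← Metric.cobounded_eq_cocompact, ← comap_norm_atTop] at h1
  obtain ⟨s, hs, hsub⟩ := mem_comap.1 h1
  obtain ⟨R, hR⟩ := mem_atTop_sets.1 hs
  exact ⟨R, fun z hz _ => hsub (hR _ hz)⟩

end Pool.Agent.A640.Tate
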