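import Mathlib

/-!
# Segments and polygons which avoid a countable set of complex numbers
-/

set_option autoImplicit false

namespace Pool.Agent.A640.Tate

open MeasureTheory Set Topology

/-- almost no segment starting at a point outside a countable set meets it -/
theorem ae_segment_disjoint {B : Set ℂ} (hB : B.Countable) {a : ℂ} (ha : a ∉ B) :
    ∀ᵐ b : ℂ, Disjoint (segment ℝ a b) B := by
  have h1 : ∀ᵐ b : ℂ, ∀ p ∈ B, p ∉ segment ℝ a b := by
    rw [ae_ball_iff hB]
    intro p hp
    have hpa : p - a ≠ 0 := sub_ne_zero.2 fun h => ha (h ▸ hp)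
    have hS : Submodule.span ℝ {p - a} ≠ ⊤ := by
      intro h
      have h1 : Module.finrank ℝ (Submodule.span ℝ {p - a}) = 1 := finrank_span_singleton hpa
      rw [h, finrank_top, Complex.finrank_real_complex] at h1
      norm_num at h1
    have h0 : volume ((fun b : ℂ => b + -a) ⁻¹' (Submodule.span ℝ {p - a} : Set ℂ)) = 0 := by
      rw [measure_preimage_add_right]
      exact Measure.addHaar_submodule _ _ hS
    refine measure_mono_null ?_ h0
    intro b hb
    have hb : p ∈ segment ℝ a b := by
      by_contra h
      exact hb h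
    rw [segment_eq_image'] at hb
    obtain ⟨t, _, ht⟩ := hb
    have ht' : t • (b - a) = p - a := by
      rw [← ht]
      ring
    have ht0 : t ≠ 0 := by
      rintro rfl
      rw [zero_smul] at ht'
      exact hpa ht'.symm
    simp only [mem_preimage, SetLike.mem_coe]
    rw [← sub_eq_add_neg, Submodule.mem_span_singleton]
    exact ⟨t⁻¹, by rw [← ht', smul_smul, inv_mul_cancel₀ ht0, one_smul]⟩
  filter_upwards [h1] with b hb
  rw [Set.disjoint_left]
  exact fun x hx hxB => hb x hxB hx

/-- in every neighbourhood of every point there is a `b` outside a countable set which sees two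
given points outside the set -/
theorem exists_segments_disjoint {B : Set ℂ} (hB : B.Countable) {a c : ℂ} (ha : a ∉ B)
    (hc : c ∉ B) {z : ℂ} {U : Set ℂ} (hU : U ∈ 𝓝 z) :
    ∃ b ∈ U, b ∉ B ∧ Disjoint (segment ℝ a b) B ∧ Disjoint (segment ℝ b c) B := by
  have h1 := (ae_segment_disjoint hB ha).and (ae_segment_disjoint hB hc)
  have hd : Dense {b : ℂ | Disjoint (segment ℝ a b) B ∧ Disjoint (segment ℝ c b) B} :=
    Measure.dense_of_ae h1
  obtain ⟨b, hb, hbU⟩ := hd.inter_nhds_nonempty hU
  refine ⟨b, hbU, ?_, hb.1, ?_⟩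
  · exact fun h => Set.disjoint_left.1 hb.1 (right_mem_segment ℝ a b) h
  · rw [segment_symm]
    exact hb.2

end Pool.Agent.A640.Tate
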